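import Mathlib

/-!
# Representations of `GL₃` over a ring with square-zero maximal ideal

Helper file for the disproof of the polynomial-dimension statement of MP_7ed69f_al.
-/

set_option autoImplicit false

namespace Pool.Agent.Lib.MP_7ed69f_al

open scoped Matrix



/-- A commuting set of endomorphisms of a nonzero finite dimensional complex space has a
common eigenvector. -/
theorem exists_common_eigenvector {V : Type} [AddCommGroup V] [Module ℂ V]
    [FiniteDimensional ℂ V] [Nontrivial V] (T : Set (Module.End ℂ V))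
    (hT : ∀ f ∈ T, ∀ g ∈ T, f * g = g * f) :
    ∃ v : V, v ≠ 0 ∧ ∀ f ∈ T, ∃ μ : ℂ, f v = μ • v := by
  classical
  let Q : ℕ → Prop := fun n => ∃ W : Submodule ℂ V, W ≠ ⊥ ∧ (∀ f ∈ T, ∀ w ∈ W, f w ∈ W) ∧
    Module.finrank ℂ W = n
  have hQ : ∃ n, Q n := ⟨_, ⊤, by simp, by simp, rfl⟩
  obtain ⟨W, hW0, hWT, hWn⟩ := Nat.find_spec hQ
  have key : ∀ f ∈ T, ∃ μ : ℂ, ∀ w ∈ W, f w = μ • w := by
    intro f hf
    have hnt : Nontrivial W := Submodule.nontrivial_iff_ne_bot.mpr hW0
    obtain ⟨μ, hμ⟩ := Module.End.exists_eigenvalue (K := ℂ) (f.restrict (hWT f hf))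
    refine ⟨μ, ?_⟩
    obtain ⟨u, hu⟩ := hμ.exists_hasEigenvector
    let W' : Submodule ℂ V := W ⊓ LinearMap.ker (f - μ • (1 : Module.End ℂ V))
    have hW'mem : ∀ w, w ∈ W' ↔ w ∈ W ∧ f w = μ • w := by
      intro w
      simp [W', sub_eq_zero]
    have hu1 : f (u : V) = μ • (u : V) := by
      have h := hu.apply_eq_smul
      have h2 := congrArg (Subtype.val) h
      simpa using h2
    have hW'0 : W' ≠ ⊥ := by
      rw [Submodule.ne_bot_iff]
      refine ⟨u, (hW'mem _).2 ⟨u.2, hu1⟩, ?_⟩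
      have := hu.2
      simpa using this
    have hW'T : ∀ g ∈ T, ∀ w ∈ W', g w ∈ W' := by
      intro g hg w hw
      rw [hW'mem] at hw ⊢
      refine ⟨hWT g hg w hw.1, ?_⟩
      have h := congrArg (fun h : Module.End ℂ V => h w) (hT f hf g hg)
      simp only [Module.End.mul_apply] at h
      rw [h, hw.2, map_smul]
    have hle : W' ≤ W := inf_le_left
    have hmin : Module.finrank ℂ W ≤ Module.finrank ℂ W' := by
      rw [hWn]
      exact Nat.find_min' hQ ⟨W', hW'0, hW'T, rfl⟩
    have heq : W' = W := Submodule.eq_of_le_of_finrank_le hle hmin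
    intro w hw
    rw [← heq, hW'mem] at hw
    exact hw.2
  obtain ⟨v, hv, hv0⟩ := Submodule.exists_mem_ne_zero_of_ne_bot hW0
  exact ⟨v, hv0, fun f hf => (key f hf).imp fun μ h => h v hv⟩

/-- Upper bound: if every linear character of the abelian subgroup `K` has a stabilising element
outside `K`, an irreducible representation has dimension at most half the index of `K`. -/
theorem two_mul_finrank_le_index {G : Type} [Group G] [Finite G] (K : Subgroup G)
    [hKn : K.Normal] (hK : ∀ x ∈ K, ∀ y ∈ K, x * y = y * x)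
    (hstab : ∀ ψ : K →* ℂˣ, ∃ g : G, g ∉ K ∧
      ∀ (x : G) (hx : x ∈ K), ψ ⟨g⁻¹ * x * g, by
        simpa using hKn.conj_mem x hx g⁻¹⟩ = ψ ⟨x, hx⟩)
    {V : Type} [AddCommGroup V] [Module ℂ V] [FiniteDimensional ℂ V] [Nontrivial V]
    (ρ : Representation ℂ G V)
    (hirr : ∀ W : Submodule ℂ V, (∀ g v, v ∈ W → ρ g v ∈ W) → W = ⊥ ∨ W = ⊤) :
    2 * Module.finrank ℂ V ≤ K.index := by
  classical
  obtain ⟨v, hv0, hv⟩ := exists_common_eigenvector (V := V) (ρ '' (K : Set G)) (by
    rintro _ ⟨x, hx, rfl⟩ _ ⟨y, hy, rfl⟩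
    rw [← map_mul, ← map_mul, hK x hx y hy])
  have hv' : ∀ x ∈ K, ∃ μ : ℂ, ρ x v = μ • v := fun x hx => hv _ ⟨x, hx, rfl⟩
  choose! c hc using hv'
  have hinj : ∀ a b : ℂ, a • v = b • v → a = b := fun a b h => smul_left_injective ℂ hv0 h
  have hc1 : c 1 = 1 := by
    apply hinj
    rw [← hc 1 K.one_mem]; simp
  have hcmul : ∀ x ∈ K, ∀ y ∈ K, c (x * y) = c x * c y := by
    intro x hx y hy
    apply hinj
    rw [← hc _ (K.mul_mem hx hy), map_mul, Module.End.mul_apply, hc y hy, map_smul, hc x hx,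
      smul_smul, mul_comm]
  let ψ : K →* ℂˣ := MonoidHom.toHomUnits
    { toFun := fun x => c x
      map_one' := hc1
      map_mul' := fun x y => hcmul x x.2 y y.2 }
  have hψ : ∀ (x : G) (hx : x ∈ K), ((ψ ⟨x, hx⟩ : ℂˣ) : ℂ) = c x := fun x hx => rfl
  obtain ⟨g, hgK, hg⟩ := hstab ψ
  -- the weight space
  let W : Submodule ℂ V :=
    { carrier := {w | ∀ x ∈ K, ρ x w = c x • w}
      add_mem' := by
        intro a b ha hb x hx
        rw [map_add, ha x hx, hb x hx, smul_add]
      zero_mem' := by intro x hx; simp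
      smul_mem' := by
        intro r a ha x hx
        rw [map_smul, ha x hx, smul_comm] }
  have hWmem : ∀ w, w ∈ W ↔ ∀ x ∈ K, ρ x w = c x • w := fun w => Iff.rfl
  have hW0 : W ≠ ⊥ := by
    rw [Submodule.ne_bot_iff]
    exact ⟨v, hc, hv0⟩
  have hgW : ∀ w ∈ W, ρ g w ∈ W := by
    intro w hw x hx
    have hx' : g⁻¹ * x * g ∈ K := by simpa using hKn.conj_mem x hx g⁻¹
    have h1 : x * g = g * (g⁻¹ * x * g) := by group
    have h2 : c (g⁻¹ * x * g) = c x := by
      rw [← hψ _ hx', ← hψ _ hx, hg x hx]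
    rw [← Module.End.mul_apply, ← map_mul, h1, map_mul, Module.End.mul_apply, hw _ hx', map_smul,
      h2]
  have hnt : Nontrivial W := Submodule.nontrivial_iff_ne_bot.mpr hW0
  obtain ⟨μ, hμ⟩ := Module.End.exists_eigenvalue (K := ℂ) ((ρ g).restrict hgW)
  obtain ⟨u, hu⟩ := hμ.exists_hasEigenvector
  have hu1 : ρ g (u : V) = μ • (u : V) := by
    have h := hu.apply_eq_smul
    have h2 := congrArg (Subtype.val) h
    simpa using h2
  have hu0 : (u : V) ≠ 0 := by simpa using hu.2
  set w : V := (u : V) with hw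
  have hwK : ∀ x ∈ K, ρ x w = c x • w := u.2
  -- the line stabiliser
  let H : Subgroup G :=
    { carrier := {x | ∃ a : ℂ, ρ x w = a • w}
      mul_mem' := by
        rintro x y ⟨a, ha⟩ ⟨b, hb⟩
        exact ⟨b * a, by rw [map_mul, Module.End.mul_apply, hb, map_smul, ha, smul_smul]⟩
      one_mem' := ⟨1, by simp⟩
      inv_mem' := by
        rintro x ⟨a, ha⟩
        refine ⟨a⁻¹, ?_⟩
        have ha0 : a ≠ 0 := by
          rintro rfl
          rw [zero_smul] at ha
          have h3 : ρ x⁻¹ (ρ x w) = w := by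
            rw [← Module.End.mul_apply, ← map_mul]; simp
          rw [ha, map_zero] at h3
          exact hu0 h3.symm
        have h3 : ρ x⁻¹ (ρ x w) = w := by
          rw [← Module.End.mul_apply, ← map_mul]; simp
        rw [ha, map_smul] at h3
        rw [eq_inv_smul_iff₀ ha0]
        exact h3 }
  have hKH : K ≤ H := fun x hx => ⟨c x, hwK x hx⟩
  have hgH : g ∈ H := ⟨μ, hu1⟩
  -- the span of the orbit
  let F : G ⧸ H → V := fun q => ρ q.out w
  have hF : ∀ x : G, ρ x w ∈ Submodule.span ℂ (Set.range F) := by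
    intro x
    have h1 : ((x : G ⧸ H).out)⁻¹ * x ∈ H := by
      have := QuotientGroup.mk_out_eq_mul H x
      obtain ⟨h, hh⟩ := this
      rw [hh]
      simp only [mul_inv_rev, inv_mul_cancel_right, inv_mem_iff, SetLike.coe_mem]
    obtain ⟨a, ha⟩ := h1
    have h2 : ρ x w = a • ρ ((x : G ⧸ H).out) w := by
      rw [← map_smul, ← ha, ← Module.End.mul_apply, ← map_mul]
      simp
    rw [h2]
    exact Submodule.smul_mem _ _ (Submodule.subset_span ⟨_, rfl⟩)
  have hspan : Submodule.span ℂ (Set.range F) = ⊤ := by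
    refine (hirr _ ?_).resolve_left ?_
    · intro x y hy
      induction hy using Submodule.span_induction with
      | mem y hy =>
        obtain ⟨q, rfl⟩ := hy
        have : ρ x (F q) = ρ (x * q.out) w := by
          simp only [F]
          rw [map_mul, Module.End.mul_apply]
        rw [this]
        exact hF _
      | zero => simp
      | add a b _ _ ha hb => rw [map_add]; exact Submodule.add_mem _ ha hb
      | smul r a _ ha => rw [map_smul]; exact Submodule.smul_mem _ _ ha
    · rw [← ne_eq, Submodule.ne_bot_iff]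
      exact ⟨w, by simpa using hF 1, hu0⟩
  have hfin : Finite (G ⧸ H) := inferInstance
  have : Fintype (G ⧸ H) := Fintype.ofFinite _
  have hdim : Module.finrank ℂ V ≤ H.index := by
    have h1 := finrank_range_le_card (R := ℂ) F
    rw [Set.finrank, hspan, finrank_top] at h1
    rwa [Subgroup.index, Nat.card_eq_fintype_card]
  have hrel : K.relIndex H * H.index = K.index := Subgroup.relIndex_mul_index hKH
  have hrel2 : 2 ≤ K.relIndex H := by
    have h0 : K.relIndex H ≠ 0 := Subgroup.FiniteIndex.index_ne_zero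
    have h1 : K.relIndex H ≠ 1 := by
      intro h
      rw [Subgroup.relIndex_eq_one] at h
      exact hgK (h hgH)
    omega
  calc 2 * Module.finrank ℂ V ≤ K.relIndex H * H.index := Nat.mul_le_mul hrel2 hdim
    _ = K.index := hrel




section Mono

variable {G : Type} [Group G] (S : Subgroup G) (χ : S →* ℂˣ)

/-- The space of the representation induced from the linear character `χ` of `S`. -/
def indSpace : Submodule ℂ (G → ℂ) where
  carrier := {f | ∀ (g : G) (s : S), f (g * s) = ((χ s)⁻¹ : ℂˣ) * f g}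
  add_mem' := by
    intro a b ha hb g s
    simp only [Pi.add_apply, ha g s, hb g s]; ring
  zero_mem' := by intro g s; simp
  smul_mem' := by
    intro c a ha g s
    simp only [Pi.smul_apply, ha g s, smul_eq_mul]; ring

theorem mem_indSpace (f : G → ℂ) :
    f ∈ indSpace S χ ↔ ∀ (g : G) (s : S), f (g * s) = ((χ s)⁻¹ : ℂˣ) * f g := Iff.rfl

/-- The induced representation (left translation). -/
def indRep : Representation ℂ G (indSpace S χ) where
  toFun h :=
    { toFun := fun f => ⟨fun g => (f : G → ℂ) (h⁻¹ * g), by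
        intro g s
        have := f.2 (h⁻¹ * g) s
        simpa [mul_assoc] using this⟩
      map_add' := by intro a b; rfl
      map_smul' := by intro c a; rfl }
  map_one' := by
    ext f g
    simp
  map_mul' := by
    intro x y
    ext f g
    simp [mul_assoc]

@[simp] theorem indRep_apply (h g : G) (f : indSpace S χ) :
    ((indRep S χ h f : indSpace S χ) : G → ℂ) g = (f : G → ℂ) (h⁻¹ * g) := rfl

open Classical in
/-- The basic function supported on the coset `g₀ S`. -/
noncomputable def delta (g₀ : G) : indSpace S χ :=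
  ⟨fun g => if h : g₀⁻¹ * g ∈ S then ((χ ⟨g₀⁻¹ * g, h⟩)⁻¹ : ℂˣ) else 0, by
    intro g s
    dsimp only
    by_cases h : g₀⁻¹ * g ∈ S
    · have h' : g₀⁻¹ * (g * s) ∈ S := by
        rw [← mul_assoc]; exact S.mul_mem h s.2
      rw [dif_pos h, dif_pos h']
      have : (⟨g₀⁻¹ * (g * s), h'⟩ : S) = ⟨g₀⁻¹ * g, h⟩ * s := by
        ext; simp [mul_assoc]
      rw [this, map_mul, mul_inv, mul_comm, Units.val_mul, mul_comm]
    · have h' : ¬ g₀⁻¹ * (g * s) ∈ S := by
        rw [← mul_assoc]
        intro h2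
        exact h ((S.mul_mem_cancel_right s.2).1 h2)
      rw [dif_neg h, dif_neg h', mul_zero]⟩

theorem delta_apply_of_mem (g₀ g : G) (h : g₀⁻¹ * g ∈ S) :
    ((delta S χ g₀ : indSpace S χ) : G → ℂ) g = ((χ ⟨g₀⁻¹ * g, h⟩)⁻¹ : ℂˣ) := by
  simp only [delta]
  rw [dif_pos h]

theorem delta_apply_of_not_mem (g₀ g : G) (h : g₀⁻¹ * g ∉ S) :
    ((delta S χ g₀ : indSpace S χ) : G → ℂ) g = 0 := by
  simp only [delta]
  rw [dif_neg h]

theorem delta_apply_self (g₀ : G) : ((delta S χ g₀ : indSpace S χ) : G → ℂ) g₀ = 1 := by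
  have h : g₀⁻¹ * g₀ ∈ S := by simp [S.one_mem]
  rw [delta_apply_of_mem S χ g₀ g₀ h]
  have : (⟨g₀⁻¹ * g₀, h⟩ : S) = 1 := by ext; simp
  rw [this]; simp

theorem indRep_delta (h g₀ : G) : indRep S χ h (delta S χ g₀) = delta S χ (h * g₀) := by
  ext g
  rw [indRep_apply]
  by_cases hg : g₀⁻¹ * (h⁻¹ * g) ∈ S
  · have hg' : (h * g₀)⁻¹ * g ∈ S := by simpa [mul_assoc] using hg
    rw [delta_apply_of_mem _ _ _ _ hg, delta_apply_of_mem _ _ _ _ hg']
    congr 3
    ext
    simp [mul_assoc]
  · have hg' : (h * g₀)⁻¹ * g ∉ S := by simpa [mul_assoc] using hg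
    rw [delta_apply_of_not_mem _ _ _ _ hg, delta_apply_of_not_mem _ _ _ _ hg']

/-- An element of the induced space is determined by its values at coset representatives. -/
theorem eq_sum_delta [Finite G] [Fintype (G ⧸ S)] (f : indSpace S χ) :
    f = ∑ q : G ⧸ S, ((f : G → ℂ) q.out) • delta S χ q.out := by
  ext g
  rw [Submodule.coe_sum, Finset.sum_apply]
  rw [Finset.sum_eq_single (g : G ⧸ S)]
  · have h1 : ((g : G ⧸ S).out)⁻¹ * g ∈ S := by
      obtain ⟨h, hh⟩ := QuotientGroup.mk_out_eq_mul S g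
      rw [hh]
      simp only [mul_inv_rev, inv_mul_cancel_right, inv_mem_iff, SetLike.coe_mem]
    have h2 : (f : G → ℂ) g = ((χ ⟨((g : G ⧸ S).out)⁻¹ * g, h1⟩)⁻¹ : ℂˣ) *
        (f : G → ℂ) ((g : G ⧸ S).out) := by
      have := f.2 ((g : G ⧸ S).out) ⟨((g : G ⧸ S).out)⁻¹ * g, h1⟩
      simpa using this
    simp only [Submodule.coe_smul, Pi.smul_apply, smul_eq_mul]
    rw [delta_apply_of_mem _ _ _ _ h1, h2, mul_comm]
  · intro q _ hq
    simp only [Submodule.coe_smul, Pi.smul_apply, smul_eq_mul]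
    rw [delta_apply_of_not_mem, mul_zero]
    intro h
    apply hq
    rw [← QuotientGroup.eq] at h
    simpa using h
  · intro h; exact absurd (Finset.mem_univ _) h

theorem finrank_indSpace [Finite G] : Module.finrank ℂ (indSpace S χ) = S.index := by
  classical
  have : Fintype (G ⧸ S) := Fintype.ofFinite _
  let e : indSpace S χ ≃ₗ[ℂ] (G ⧸ S → ℂ) :=
    { toFun := fun f q => (f : G → ℂ) q.out
      map_add' := fun a b => rfl
      map_smul' := fun a b => rfl
      invFun := fun F => ∑ q : G ⧸ S, F q • delta S χ q.out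
      left_inv := fun f => (eq_sum_delta S χ f).symm
      right_inv := by
        intro F
        ext q
        simp only [Submodule.coe_sum, Finset.sum_apply, Submodule.coe_smul, Pi.smul_apply,
          smul_eq_mul]
        rw [Finset.sum_eq_single q]
        · rw [delta_apply_self, mul_one]
        · intro q' _ hq'
          rw [delta_apply_of_not_mem, mul_zero]
          intro h
          apply hq'
          rw [← QuotientGroup.eq] at h
          simpa using h
        · intro h; exact absurd (Finset.mem_univ _) h }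
  rw [e.finrank_eq, Module.finrank_fintype_fun_eq_card, Subgroup.index, Nat.card_eq_fintype_card]

theorem indRep_irreducible [Finite G] (K : Subgroup G) [hKn : K.Normal] (hKS : K ≤ S)
    (hsep : ∀ g : G, g ∉ S → ∃ (x : G) (hx : x ∈ K),
      χ ⟨g⁻¹ * x * g, hKS (by simpa using hKn.conj_mem x hx g⁻¹)⟩ ≠ χ ⟨x, hKS hx⟩)
    (W : Submodule ℂ (indSpace S χ))
    (hW : ∀ (g : G) (v : indSpace S χ), v ∈ W → indRep S χ g v ∈ W) : W = ⊥ ∨ W = ⊤ := by
  classical
  have hft : Fintype G := Fintype.ofFinite _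
  have hfK : Fintype K := Fintype.ofFinite _
  by_cases hbot : W = ⊥
  · exact Or.inl hbot
  right
  obtain ⟨f, hfW, hf0⟩ := Submodule.exists_mem_ne_zero_of_ne_bot hbot
  -- a point where f is nonzero
  have hex : ∃ g₀ : G, (f : G → ℂ) g₀ ≠ 0 := by
    by_contra hcon
    push Not at hcon
    apply hf0
    ext g
    simpa using hcon g
  obtain ⟨g₀, hg₀⟩ := hex
  have hconj : ∀ (g : G) (x : K), g⁻¹ * x * g ∈ K := fun g x => by
    simpa using hKn.conj_mem x x.2 g⁻¹
  -- the character of `K` attached to `g`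
  let φ : G → (K →* ℂˣ) := fun g =>
    { toFun := fun x => χ ⟨g⁻¹ * x * g, hKS (hconj g x)⟩
      map_one' := by
        rw [← map_one χ]; congr 1; ext; simp
      map_mul' := by
        intro x y
        rw [← map_mul]; congr 1; ext; simp [mul_assoc] }
  have hφ : ∀ g (x : K), φ g x = χ ⟨g⁻¹ * x * g, hKS (hconj g x)⟩ := fun _ _ => rfl
  have hact : ∀ (x : K) (u : indSpace S χ) (g : G),
      ((indRep S χ x u : indSpace S χ) : G → ℂ) g = (φ g x : ℂˣ) * (u : G → ℂ) g := by
    intro x u g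
    rw [indRep_apply]
    have h1 : ((x : G)⁻¹ * g) = g * ((⟨g⁻¹ * x * g, hKS (hconj g x)⟩ : S)⁻¹ : S) := by
      simp [mul_assoc]
    rw [h1, u.2, hφ, map_inv, inv_inv]
  -- the characters attached to `g` and `g₀` agree iff `g ∈ g₀ S`
  have hφeq : ∀ g, φ g = φ g₀ ↔ g₀⁻¹ * g ∈ S := by
    intro g
    constructor
    · intro h
      by_contra hn
      obtain ⟨x, hx, hne⟩ := hsep (g₀⁻¹ * g) hn
      apply hne
      have hy : g₀ * x * g₀⁻¹ ∈ K := hKn.conj_mem x hx g₀
      have h2 := DFunLike.congr_fun h ⟨g₀ * x * g₀⁻¹, hy⟩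
      rw [hφ, hφ] at h2
      convert h2 using 2
      · ext; simp [mul_assoc]
      · ext; simp [mul_assoc]
    · intro h
      ext x
      rw [hφ, hφ]
      have h3 : (⟨g⁻¹ * x * g, hKS (hconj g x)⟩ : S) =
          (⟨g₀⁻¹ * g, h⟩ : S)⁻¹ * ⟨g₀⁻¹ * x * g₀, hKS (hconj g₀ x)⟩ * ⟨g₀⁻¹ * g, h⟩ := by
        ext; simp [mul_assoc]
      rw [h3, map_mul, map_mul, map_inv, mul_comm (χ _)⁻¹, inv_mul_cancel_right]
  -- the projection to the coset
  let E : indSpace S χ := ∑ x : K, ((φ g₀ x)⁻¹ : ℂˣ).val • indRep S χ x f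
  have hEW : E ∈ W := Submodule.sum_mem _ fun x _ => Submodule.smul_mem _ _ (hW _ _ hfW)
  have hEval : ∀ g, (E : G → ℂ) g = (∑ x : K, (((φ g * (φ g₀)⁻¹) x : ℂˣ) : ℂ)) * (f : G → ℂ) g := by
    intro g
    simp only [E, Submodule.coe_sum, Finset.sum_apply, Submodule.coe_smul, Pi.smul_apply,
      smul_eq_mul]
    rw [Finset.sum_mul]
    refine Finset.sum_congr rfl fun x _ => ?_
    rw [hact, MonoidHom.mul_apply, MonoidHom.inv_apply, Units.val_mul]
    ring
  have hEd : E = ((Fintype.card K : ℂ) * (f : G → ℂ) g₀) • delta S χ g₀ := by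
    ext g
    rw [hEval]
    simp only [Submodule.coe_smul, Pi.smul_apply, smul_eq_mul]
    by_cases hg : g₀⁻¹ * g ∈ S
    · rw [(hφeq g).2 hg, delta_apply_of_mem _ _ _ _ hg]
      have h5 : (f : G → ℂ) g = ((χ ⟨g₀⁻¹ * g, hg⟩)⁻¹ : ℂˣ) * (f : G → ℂ) g₀ := by
        have := f.2 g₀ ⟨g₀⁻¹ * g, hg⟩
        simpa using this
      rw [h5]
      simp
      ring
    · rw [delta_apply_of_not_mem _ _ _ _ hg, mul_zero]
      have hne : φ g * (φ g₀)⁻¹ ≠ 1 := by
        intro h
        apply hg
        rw [← hφeq g]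
        ext x
        have h8 := DFunLike.congr_fun h x
        rw [MonoidHom.mul_apply, MonoidHom.inv_apply, MonoidHom.one_apply, mul_inv_eq_one] at h8
        rw [h8]
      have h6 : ∑ x : K, (((φ g * (φ g₀)⁻¹) x : ℂˣ) : ℂ) = 0 := by
        have h7 : (Units.coeHom ℂ).comp (φ g * (φ g₀)⁻¹) ≠ 1 := by
          intro h
          apply hne
          ext x
          have := DFunLike.congr_fun h x
          simpa using this
        have := sum_hom_units_eq_zero ((Units.coeHom ℂ).comp (φ g * (φ g₀)⁻¹)) h7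
        simpa using this
      rw [h6, zero_mul]
  have hcard : (Fintype.card K : ℂ) ≠ 0 := by
    exact_mod_cast Fintype.card_ne_zero
  have hd : delta S χ g₀ ∈ W := by
    rw [hEd] at hEW
    exact (Submodule.smul_mem_iff _ (mul_ne_zero hcard hg₀)).1 hEW
  have hall : ∀ g, delta S χ g ∈ W := by
    intro g
    have := hW (g * g₀⁻¹) _ hd
    rwa [indRep_delta, inv_mul_cancel_right] at this
  rw [eq_top_iff]
  intro u _
  have : Fintype (G ⧸ S) := Fintype.ofFinite _
  rw [eq_sum_delta S χ u]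
  exact Submodule.sum_mem _ fun q _ => Submodule.smul_mem _ _ (hall _)

end Mono




section Mat

variable {A k : Type} [CommRing A] [Field k] (π : A →+* k)

/-- The square-zero condition on the kernel of `π`. -/
def SqZero : Prop := ∀ x y : A, π x = 0 → π y = 0 → x * y = 0

variable {π}

theorem isUnit_of_ne_zero (hs : Function.Surjective π) (h0 : SqZero π) (a : A) (ha : π a ≠ 0) :
    IsUnit a := by
  obtain ⟨b, hb⟩ := hs ((π a)⁻¹)
  have h1 : π (a * b - 1) = 0 := by
    rw [map_sub, map_mul, hb, mul_inv_cancel₀ ha, map_one, sub_self]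
  have h2 := h0 _ _ h1 h1
  refine IsUnit.of_mul_eq_one (b * (2 - a * b)) ?_
  linear_combination -h2

/-- The reduction homomorphism. -/
noncomputable abbrev redGL (π : A →+* k) : GL (Fin 3) A →* GL (Fin 3) k :=
  Matrix.GeneralLinearGroup.map π

theorem redGL_apply (g : GL (Fin 3) A) (i j : Fin 3) : (redGL π g) i j = π (g i j) := rfl

theorem redGL_surjective (hs : Function.Surjective π) (h0 : SqZero π) :
    Function.Surjective (redGL π) := by
  intro g
  choose f hf using hs
  let X : Matrix (Fin 3) (Fin 3) A := Matrix.of fun i j => f (g i j)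
  have hX : π.mapMatrix X = (g : Matrix (Fin 3) (Fin 3) k) := by
    ext i j
    simp [X, hf]
  have hdet : π X.det ≠ 0 := by
    rw [RingHom.map_det, hX]
    have := (Matrix.isUnit_iff_isUnit_det _).1 g.isUnit
    exact this.ne_zero
  have hu : IsUnit X.det := isUnit_of_ne_zero (fun y => ⟨f y, hf y⟩) h0 _ hdet
  refine ⟨Matrix.GeneralLinearGroup.mk'' X hu, ?_⟩
  ext i j
  rw [redGL_apply]
  have := congrFun (congrFun hX i) j
  simpa using this

theorem mem_ker_iff (g : GL (Fin 3) A) :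
    g ∈ (redGL π).ker ↔ ∀ i j, π ((g : Matrix (Fin 3) (Fin 3) A) i j
      - (1 : Matrix (Fin 3) (Fin 3) A) i j) = 0 := by
  rw [MonoidHom.mem_ker]
  constructor
  · intro h i j
    have h1 : (redGL π g) i j = (1 : GL (Fin 3) k) i j := by rw [h]
    rw [redGL_apply] at h1
    rw [map_sub, h1]
    have : π ((1 : Matrix (Fin 3) (Fin 3) A) i j) = (1 : Matrix (Fin 3) (Fin 3) k) i j := by
      by_cases hij : i = j
      · subst hij; simp
      · simp [hij]
    rw [this]
    simp
  · intro h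
    ext i j
    rw [redGL_apply]
    have h1 := h i j
    rw [map_sub] at h1
    have : π ((1 : Matrix (Fin 3) (Fin 3) A) i j) = (1 : Matrix (Fin 3) (Fin 3) k) i j := by
      by_cases hij : i = j
      · subst hij; simp
      · simp [hij]
    rw [this, sub_eq_zero] at h1
    rw [h1]
    simp

/-- The product of two matrices with entries in the kernel vanishes. -/
theorem mul_eq_zero_of_ker (h0 : SqZero π) (X Y : Matrix (Fin 3) (Fin 3) A)
    (hX : ∀ i j, π (X i j) = 0) (hY : ∀ i j, π (Y i j) = 0) : X * Y = 0 := by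
  ext i j
  rw [Matrix.mul_apply]
  exact Finset.sum_eq_zero fun l _ => h0 _ _ (hX i l) (hY l j)

/-- The element `1 + X` of the congruence kernel. -/
def kElt (h0 : SqZero π) (X : Matrix (Fin 3) (Fin 3) A) (hX : ∀ i j, π (X i j) = 0) :
    GL (Fin 3) A where
  val := 1 + X
  inv := 1 - X
  val_inv := by
    have := mul_eq_zero_of_ker h0 X X hX hX
    noncomm_ring
    simp [this]
  inv_val := by
    have := mul_eq_zero_of_ker h0 X X hX hX
    noncomm_ring
    simp [this]

theorem kElt_val (h0 : SqZero π) (X : Matrix (Fin 3) (Fin 3) A) (hX : ∀ i j, π (X i j) = 0) :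
    ((kElt h0 X hX : GL (Fin 3) A) : Matrix (Fin 3) (Fin 3) A) = 1 + X := rfl

theorem kElt_mem (h0 : SqZero π) (X : Matrix (Fin 3) (Fin 3) A) (hX : ∀ i j, π (X i j) = 0) :
    kElt h0 X hX ∈ (redGL π).ker := by
  rw [mem_ker_iff]
  intro i j
  rw [kElt_val]
  simp [hX]

theorem exists_kElt (h0 : SqZero π) (g : GL (Fin 3) A) (hg : g ∈ (redGL π).ker) :
    ∃ (X : Matrix (Fin 3) (Fin 3) A) (hX : ∀ i j, π (X i j) = 0), g = kElt h0 X hX := by
  rw [mem_ker_iff] at hg
  refine ⟨(g : Matrix (Fin 3) (Fin 3) A) - 1, fun i j => by simpa using hg i j, ?_⟩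
  ext i j
  rw [kElt_val]
  simp

theorem kElt_mul (h0 : SqZero π) (X Y : Matrix (Fin 3) (Fin 3) A) (hX : ∀ i j, π (X i j) = 0)
    (hY : ∀ i j, π (Y i j) = 0) :
    kElt h0 X hX * kElt h0 Y hY = kElt h0 (X + Y) (fun i j => by simp [hX, hY]) := by
  apply Units.ext
  rw [Units.val_mul, kElt_val, kElt_val, kElt_val]
  have := mul_eq_zero_of_ker h0 X Y hX hY
  noncomm_ring
  simp [this]

theorem ker_comm (h0 : SqZero π) (x : GL (Fin 3) A) (hx : x ∈ (redGL π).ker)
    (y : GL (Fin 3) A) (hy : y ∈ (redGL π).ker) : x * y = y * x := by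
  obtain ⟨X, hX, rfl⟩ := exists_kElt h0 x hx
  obtain ⟨Y, hY, rfl⟩ := exists_kElt h0 y hy
  rw [kElt_mul, kElt_mul]
  congr 1
  abel

theorem conj_kElt (h0 : SqZero π) (g : GL (Fin 3) A) (X : Matrix (Fin 3) (Fin 3) A)
    (hX : ∀ i j, π (X i j) = 0) :
    ∃ hY : ∀ i j, π (((g⁻¹ : GL (Fin 3) A).val * X * g.val) i j) = 0,
      g⁻¹ * kElt h0 X hX * g = kElt h0 ((g⁻¹ : GL (Fin 3) A).val * X * g.val) hY := by
  have hY : ∀ i j, π (((g⁻¹ : GL (Fin 3) A).val * X * g.val) i j) = 0 := by
    intro i j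
    rw [Matrix.mul_apply, map_sum]
    refine Finset.sum_eq_zero fun l _ => ?_
    rw [map_mul, Matrix.mul_apply, map_sum]
    rw [Finset.sum_eq_zero, zero_mul]
    intro m _
    rw [map_mul, hX, mul_zero]
  refine ⟨hY, ?_⟩
  apply Units.ext
  rw [Units.val_mul, Units.val_mul, kElt_val, kElt_val, mul_add, add_mul, mul_one,
    ← Units.val_mul, inv_mul_cancel, Units.val_one]

end Mat




section Torus

variable (k : Type) [Field k]

/-- The diagonal torus of `GL₃(k)`. -/
def torus : Subgroup (GL (Fin 3) k) :=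
  (Units.map (Matrix.diagonalRingHom (Fin 3) k).toMonoidHom : (Fin 3 → k)ˣ →* _).range

variable {k}

theorem mem_torus_iff (g : GL (Fin 3) k) :
    g ∈ torus k ↔ ∀ i j, i ≠ j → g i j = 0 := by
  constructor
  · rintro ⟨d, rfl⟩ i j hij
    simp [Matrix.diagonal_apply_ne _ hij]
  · intro h
    have hd : (g : Matrix (Fin 3) (Fin 3) k) = Matrix.diagonal (fun i => g i i) := by
      ext i j
      by_cases hij : i = j
      · subst hij; simp
      · rw [Matrix.diagonal_apply_ne _ hij]; exact h i j hij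
    have hdet : (g : Matrix (Fin 3) (Fin 3) k).det ≠ 0 :=
      ((Matrix.isUnit_iff_isUnit_det _).1 g.isUnit).ne_zero
    rw [hd, Matrix.det_diagonal, Finset.prod_ne_zero_iff] at hdet
    have hne : ∀ i, g i i ≠ 0 := fun i => hdet i (Finset.mem_univ i)
    refine ⟨⟨fun i => g i i, fun i => (g i i)⁻¹, ?_, ?_⟩, ?_⟩
    · ext i; simp [hne i]
    · ext i; simp [hne i]
    · refine Units.ext ?_
      refine Eq.trans ?_ hd.symm
      simp

theorem card_torus [Finite k] : Nat.card (torus k) = (Nat.card k - 1) ^ 3 := by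
  classical
  have : Fintype k := Fintype.ofFinite k
  have hinj : Function.Injective
      (Units.map (Matrix.diagonalRingHom (Fin 3) k).toMonoidHom : (Fin 3 → k)ˣ →* _) := by
    intro a b h
    have h1 := congrArg Units.val h
    have h2 : Matrix.diagonal (a : Fin 3 → k) = Matrix.diagonal (b : Fin 3 → k) := by
      simpa using h1
    exact Units.ext (Matrix.diagonal_injective h2)
  rw [torus, ← Nat.card_congr (MonoidHom.ofInjective hinj).toEquiv,
    Nat.card_congr (MulEquiv.piUnits (M := fun _ : Fin 3 => k)).toEquiv, Nat.card_pi]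
  rw [Finset.prod_const, Nat.card_units, Finset.card_univ, Fintype.card_fin]

theorem index_torus [Finite k] :
    (torus k).index = Nat.card k ^ 3 * (Nat.card k + 1) * (Nat.card k ^ 2 + Nat.card k + 1) := by
  classical
  have : Fintype k := Fintype.ofFinite k
  have h1 := Subgroup.card_mul_index (torus k)
  rw [card_torus, Matrix.card_GL_field] at h1
  simp only [Fin.prod_univ_three] at h1
  have hq : 2 ≤ Nat.card k := by
    have : 1 < Nat.card k := Finite.one_lt_card
    omega
  rw [← Nat.card_eq_fintype_card] at h1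
  generalize Nat.card k = q at *
  obtain ⟨m, rfl⟩ : ∃ m, q = m + 1 := ⟨q - 1, by omega⟩
  have hm : 0 < m := by omega
  have e1 : (m + 1) ^ 3 - (m + 1) ^ ((0 : Fin 3) : ℕ) = m * (m ^ 2 + 3 * m + 3) := by
    simp only [Fin.val_zero, pow_zero]
    rw [Nat.sub_eq_iff_eq_add (Nat.one_le_pow _ _ (by omega))]
    ring
  have e2 : (m + 1) ^ 3 - (m + 1) ^ ((1 : Fin 3) : ℕ) = m * (m + 1) * (m + 2) := by
    have h3 : ((1 : Fin 3) : ℕ) = 1 := rfl
    rw [h3]
    rw [Nat.sub_eq_iff_eq_add (Nat.pow_le_pow_right (by omega) (by omega))]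
    ring
  have e3 : (m + 1) ^ 3 - (m + 1) ^ ((2 : Fin 3) : ℕ) = m * (m + 1) ^ 2 := by
    have h3 : ((2 : Fin 3) : ℕ) = 2 := rfl
    rw [h3]
    rw [Nat.sub_eq_iff_eq_add (Nat.pow_le_pow_right (by omega) (by omega))]
    ring
  rw [e1, e2, e3, Nat.add_sub_cancel] at h1
  have h4 : m ^ 3 * (torus k).index =
      m ^ 3 * ((m + 1) ^ 3 * (m + 1 + 1) * ((m + 1) ^ 2 + (m + 1) + 1)) := by
    rw [h1]; ring
  exact Nat.eq_of_mul_eq_mul_left (pow_pos hm 3) h4

end Torus

section Big

variable {A k : Type} [CommRing A] [Field k] {π : A →+* k}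

/-- The preimage of the torus. -/
noncomputable def bigS (π : A →+* k) : Subgroup (GL (Fin 3) A) := (torus k).comap (redGL π)

theorem mem_bigS (g : GL (Fin 3) A) : g ∈ bigS π ↔ ∀ i j, i ≠ j → π (g i j) = 0 := by
  rw [bigS, Subgroup.mem_comap, mem_torus_iff]
  rfl

theorem ker_le_bigS : (redGL π).ker ≤ bigS π := by
  intro g hg
  rw [MonoidHom.mem_ker] at hg
  rw [bigS, Subgroup.mem_comap, hg]
  exact Subgroup.one_mem _

/-- The diagonal entries are multiplicative on `bigS`. -/
def diagHom (h0 : SqZero π) (i : Fin 3) : bigS π →* A where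
  toFun s := (s : GL (Fin 3) A) i i
  map_one' := by simp
  map_mul' := by
    intro s t
    have hs := (mem_bigS (s : GL (Fin 3) A)).1 s.2
    have ht := (mem_bigS (t : GL (Fin 3) A)).1 t.2
    rw [Subgroup.coe_mul, Units.val_mul, Matrix.mul_apply]
    rw [Finset.sum_eq_single i]
    · intro j _ hj
      exact h0 _ _ (hs i j (Ne.symm hj)) (ht j i hj)
    · intro h; exact absurd (Finset.mem_univ _) h

theorem diagHom_apply (h0 : SqZero π) (i : Fin 3) (s : bigS π) :
    diagHom h0 i s = (s : GL (Fin 3) A) i i := rfl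

/-- The unit `1 + y` for `y` in the kernel. -/
def oneAdd (h0 : SqZero π) (y : A) (hy : π y = 0) : Aˣ where
  val := 1 + y
  inv := 1 - y
  val_inv := by
    have := h0 y y hy hy
    linear_combination -this
  inv_val := by
    have := h0 y y hy hy
    linear_combination -this

theorem oneAdd_val (h0 : SqZero π) (y : A) (hy : π y = 0) :
    (oneAdd h0 y hy : A) = 1 + y := rfl

theorem oneAdd_mul (h0 : SqZero π) (y z : A) (hy : π y = 0) (hz : π z = 0) :
    oneAdd h0 y hy * oneAdd h0 z hz = oneAdd h0 (y + z) (by rw [map_add, hy, hz, add_zero]) := by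
  apply Units.ext
  rw [Units.val_mul, oneAdd_val, oneAdd_val, oneAdd_val]
  have := h0 y z hy hz
  linear_combination this

/-- The linear character of `bigS`. -/
noncomputable def bigChi (h0 : SqZero π) (θ : Aˣ →* ℂˣ) : bigS π →* ℂˣ :=
  (θ.comp (diagHom h0 1).toHomUnits) * (θ.comp (diagHom h0 2).toHomUnits) ^ 2

theorem bigChi_kElt (h0 : SqZero π) (θ : Aˣ →* ℂˣ) (X : Matrix (Fin 3) (Fin 3) A)
    (hX : ∀ i j, π (X i j) = 0) (hm : kElt h0 X hX ∈ bigS π) :
    bigChi h0 θ ⟨kElt h0 X hX, hm⟩ =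
      θ (oneAdd h0 (X 1 1 + 2 * X 2 2) (by rw [map_add, map_mul, hX, hX, mul_zero, add_zero])) := by
  have e1 : (diagHom h0 1).toHomUnits ⟨kElt h0 X hX, hm⟩ = oneAdd h0 (X 1 1) (hX 1 1) := by
    apply Units.ext
    rw [MonoidHom.coe_toHomUnits, diagHom_apply, oneAdd_val, kElt_val]
    simp
  have e2 : (diagHom h0 2).toHomUnits ⟨kElt h0 X hX, hm⟩ = oneAdd h0 (X 2 2) (hX 2 2) := by
    apply Units.ext
    rw [MonoidHom.coe_toHomUnits, diagHom_apply, oneAdd_val, kElt_val]
    simp
  rw [bigChi, MonoidHom.mul_apply, MonoidHom.pow_apply, MonoidHom.comp_apply,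
    MonoidHom.comp_apply, e1, e2, ← map_pow, ← map_mul, pow_two, oneAdd_mul, oneAdd_mul]
  congr 2
  ring

/-- The matrix `diag(0,1,2)`. -/
def betaM (A : Type) [CommRing A] : Matrix (Fin 3) (Fin 3) A := Matrix.diagonal ![0, 1, 2]

theorem trace_betaM_mul (X : Matrix (Fin 3) (Fin 3) A) :
    Matrix.trace (betaM A * X) = X 1 1 + 2 * X 2 2 := by
  simp [Matrix.trace, betaM, Fin.sum_univ_three]

theorem bigChi_sep (hs : Function.Surjective π) (h0 : SqZero π) (h2 : (2 : k) ≠ 0)
    (θ : Aˣ →* ℂˣ) (x₀ : A) (hx₀ : π x₀ = 0) (hθ : θ (oneAdd h0 x₀ hx₀) ≠ 1)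
    (g : GL (Fin 3) A) (hg : g ∉ bigS π) :
    ∃ (x : GL (Fin 3) A) (hx : x ∈ (redGL π).ker),
      bigChi h0 θ ⟨g⁻¹ * x * g, ker_le_bigS (by
        simpa using (redGL π).normal_ker.conj_mem x hx g⁻¹)⟩ ≠
      bigChi h0 θ ⟨x, ker_le_bigS hx⟩ := by
  classical
  set C : Matrix (Fin 3) (Fin 3) A := g.val * betaM A * (g⁻¹ : GL (Fin 3) A).val - betaM A with hC
  -- some entry of `C` is a unit
  have hex : ∃ i j, π (C i j) ≠ 0 := by
    by_contra hcon
    push Not at hcon
    apply hg
    rw [mem_bigS]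
    have h1 : C * g.val = g.val * betaM A - betaM A * g.val := by
      rw [hC, sub_mul, mul_assoc, ← Units.val_mul, inv_mul_cancel, Units.val_one, mul_one]
    have h3 : ∀ i j, π ((g.val * betaM A - betaM A * g.val) i j) = 0 := by
      intro i j
      rw [← h1, Matrix.mul_apply, map_sum]
      exact Finset.sum_eq_zero fun l _ => by rw [map_mul, hcon, zero_mul]
    have h4 : ∀ i j, π (g i j) * (![0, 1, 2] j - ![0, 1, 2] i) = 0 := by
      intro i j
      have := h3 i j
      simp only [betaM, Matrix.sub_apply, Matrix.mul_diagonal, Matrix.diagonal_mul, map_sub,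
        map_mul] at this
      rw [mul_sub]
      have e : ∀ l : Fin 3, π ((![0, 1, 2] : Fin 3 → A) l) = (![0, 1, 2] : Fin 3 → k) l := by
        intro l
        fin_cases l
        · simp
        · simp
        · exact map_ofNat π 2
      rw [e, e] at this
      linear_combination this
    intro i j hij
    have h5 := h4 i j
    rcases mul_eq_zero.1 h5 with h6 | h6
    · exact h6
    · exfalso
      have h21 : (2 : k) - 1 = 1 := by ring
      have h12 : (1 : k) - 2 = -1 := by ring
      fin_cases i <;> fin_cases j <;> simp_all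
  obtain ⟨i, j, hij⟩ := hex
  obtain ⟨c, hc⟩ := isUnit_of_ne_zero hs h0 _ hij
  set y : A := (c⁻¹ : Aˣ) * x₀ with hy
  have hy0 : π y = 0 := by rw [hy, map_mul, hx₀, mul_zero]
  have hX : ∀ a b, π (Matrix.single j i y a b) = 0 := by
    intro a b
    rw [Matrix.single_apply]
    split_ifs
    · exact hy0
    · exact map_zero _
  refine ⟨kElt h0 (Matrix.single j i y) hX, kElt_mem h0 _ hX, ?_⟩
  obtain ⟨hY, hconj⟩ := conj_kElt h0 g (Matrix.single j i y) hX
  have e1 : (⟨g⁻¹ * kElt h0 (Matrix.single j i y) hX * g, ker_le_bigS (by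
        simpa using (redGL π).normal_ker.conj_mem _ (kElt_mem h0 _ hX) g⁻¹)⟩ : bigS π) =
      ⟨kElt h0 ((g⁻¹ : GL (Fin 3) A).val * Matrix.single j i y * g.val) hY,
        ker_le_bigS (kElt_mem h0 _ hY)⟩ := Subtype.ext hconj
  rw [e1, bigChi_kElt, bigChi_kElt]
  -- compute the trace
  have key : ((g⁻¹ : GL (Fin 3) A).val * Matrix.single j i y * g.val) 1 1 +
      2 * ((g⁻¹ : GL (Fin 3) A).val * Matrix.single j i y * g.val) 2 2 =
      (Matrix.single j i y 1 1 + 2 * Matrix.single j i y 2 2) + x₀ := by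
    rw [← trace_betaM_mul, ← trace_betaM_mul]
    have h7 : Matrix.trace (betaM A * ((g⁻¹ : GL (Fin 3) A).val * Matrix.single j i y * g.val)) =
        Matrix.trace (g.val * betaM A * (g⁻¹ : GL (Fin 3) A).val * Matrix.single j i y) := by
      rw [← mul_assoc, Matrix.trace_mul_comm, ← mul_assoc, ← mul_assoc]
    rw [h7]
    have h8 : g.val * betaM A * (g⁻¹ : GL (Fin 3) A).val = C + betaM A := by
      rw [hC]; abel
    rw [h8, add_mul, Matrix.trace_add]
    have h9 : Matrix.trace (C * Matrix.single j i y) = x₀ := by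
      rw [Matrix.trace_mul_comm, Matrix.trace_single_mul, hy, ← hc, smul_eq_mul, mul_right_comm, Units.inv_mul,
        one_mul]
    rw [h9, add_comm]
  have e3 : oneAdd h0 (((g⁻¹ : GL (Fin 3) A).val * Matrix.single j i y * g.val) 1 1 +
      2 * ((g⁻¹ : GL (Fin 3) A).val * Matrix.single j i y * g.val) 2 2)
      (by rw [map_add, map_mul, hY, hY, mul_zero, add_zero]) =
      oneAdd h0 (Matrix.single j i y 1 1 + 2 * Matrix.single j i y 2 2)
      (by rw [map_add, map_mul, hX, hX, mul_zero, add_zero]) * oneAdd h0 x₀ hx₀ := by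
    rw [oneAdd_mul]
    apply Units.ext
    rw [oneAdd_val, oneAdd_val, key]
  rw [e3, map_mul]
  intro h
  exact hθ (by simpa using h)

end Big



set_option maxRecDepth 100000 in
theorem poly_key : ∀ a b c d e f g h i : ZMod 2,
    (a * (e * i + f * h) + b * (d * i + f * g) + c * (d * h + e * g) = 1) ∨
    ((1 + a) * ((1 + e) * (1 + i) + f * h) + b * (d * (1 + i) + f * g) +
      c * (d * h + (1 + e) * g) = 1) ∨
    ((1 + a + (a * a + b * d + c * g)) *
      ((1 + e + (d * b + e * e + f * h)) * (1 + i + (g * c + h * f + i * i)) +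
       (f + (d * c + e * f + f * i)) * (h + (g * b + h * e + i * h))) +
     (b + (a * b + b * e + c * h)) *
      ((d + (d * a + e * d + f * g)) * (1 + i + (g * c + h * f + i * i)) +
       (f + (d * c + e * f + f * i)) * (g + (g * a + h * d + i * g))) +
     (c + (a * c + b * f + c * i)) *
      ((d + (d * a + e * d + f * g)) * (h + (g * b + h * e + i * h)) +
       (1 + e + (d * b + e * e + f * h)) * (g + (g * a + h * d + i * g))) = 1) := by
  decide

set_option maxRecDepth 100000 in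
theorem idem_key : ∀ a b c d e f g h i : ZMod 2,
    (a * a + b * d + c * g = a ∧ a * b + b * e + c * h = b ∧ a * c + b * f + c * i = c ∧
     d * a + e * d + f * g = d ∧ d * b + e * e + f * h = e ∧ d * c + e * f + f * i = f ∧
     g * a + h * d + i * g = g ∧ g * b + h * e + i * h = h ∧ g * c + h * f + i * i = i) →
    (∃ x y : Fin 3, (![![a, b, c], ![d, e, f], ![g, h, i]] : Fin 3 → Fin 3 → ZMod 2) y x = 0 ∧
      (∃ u, (![![a, b, c], ![d, e, f], ![g, h, i]] : Fin 3 → Fin 3 → ZMod 2) u x = 1) ∧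
      (∃ v, (![![a, b, c], ![d, e, f], ![g, h, i]] : Fin 3 → Fin 3 → ZMod 2) y v = 1)) ∨
    (∃ x y : Fin 3, (![![1 + a, b, c], ![d, 1 + e, f], ![g, h, 1 + i]] :
        Fin 3 → Fin 3 → ZMod 2) y x = 0 ∧
      (∃ u, (![![1 + a, b, c], ![d, 1 + e, f], ![g, h, 1 + i]] : Fin 3 → Fin 3 → ZMod 2) u x = 1) ∧
      (∃ v, (![![1 + a, b, c], ![d, 1 + e, f], ![g, h, 1 + i]] : Fin 3 → Fin 3 → ZMod 2) y v = 1))
     := by
  decide

/-- An idempotent with a zero entry `(y,x)` and nonzero column `x` and row `y` commutes with a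
non-identity invertible matrix. -/
theorem idem_comm (E : Matrix (Fin 3) (Fin 3) (ZMod 2)) (hE : E * E = E) (x y : Fin 3)
    (h0 : E y x = 0) (u : Fin 3) (hu : E u x = 1) (v : Fin 3) (hv : E y v = 1) :
    ∃ g : GL (Fin 3) (ZMod 2), g ≠ 1 ∧ g.val * E = E * g.val := by
  set N : Matrix (Fin 3) (Fin 3) (ZMod 2) := E * Matrix.single x y 1 * E with hN
  have hNN : N * N = 0 := by
    have h1 : N * N = E * (Matrix.single x y 1 * (E * E) * Matrix.single x y 1) * E := by
      rw [hN]; simp only [mul_assoc]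
    have h2 : Matrix.single x y (1 : ZMod 2) * E * Matrix.single x y 1 = 0 := by
      rw [Matrix.single_mul_mul_single, h0]
      simp
    rw [h1, hE, h2]
    simp
  have hN1 : N u v = 1 := by
    have h3 : N u v = E u x * E y v := by
      rw [hN, Matrix.mul_apply, Finset.sum_eq_single y]
      · rw [Matrix.mul_apply, Finset.sum_eq_single x]
        · simp
        · intro b _ hb; simp [Matrix.single_apply_of_row_ne (Ne.symm hb)]
        · intro h; exact absurd (Finset.mem_univ _) h
      · intro b _ hb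
        rw [Matrix.mul_apply, Finset.sum_eq_zero, zero_mul]
        intro c _
        simp [Ne.symm hb]
      · intro h; exact absurd (Finset.mem_univ _) h
    rw [h3, hu, hv, one_mul]
  have hEN : E * N = N := by rw [hN, ← mul_assoc, ← mul_assoc, hE]
  have hNE : N * E = N := by rw [hN, mul_assoc, hE]
  let g : GL (Fin 3) (ZMod 2) := ⟨1 + N, 1 - N, by noncomm_ring; simp [hNN],
    by noncomm_ring; simp [hNN]⟩
  refine ⟨g, ?_, ?_⟩
  · intro h
    have h4 : (1 + N : Matrix (Fin 3) (Fin 3) (ZMod 2)) = 1 := congrArg Units.val h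
    have h5 : N = 0 := by simpa using h4
    rw [h5] at hN1
    simp at hN1
  · change (1 + N) * E = E * (1 + N)
    rw [add_mul, mul_add, hEN, hNE, one_mul, mul_one]

theorem exists_of_det (B C : Matrix (Fin 3) (Fin 3) (ZMod 2)) (hdet : C.det = 1) (hC : C ≠ 1)
    (hcomm : C * B = B * C) :
    ∃ g : GL (Fin 3) (ZMod 2), g ≠ 1 ∧ g.val * B = B * g.val := by
  refine ⟨Matrix.GeneralLinearGroup.mk'' C (by rw [hdet]; exact isUnit_one), ?_, ?_⟩
  · intro h
    exact hC (congrArg Units.val h)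
  · exact hcomm

theorem exists_comm (B : Matrix (Fin 3) (Fin 3) (ZMod 2)) :
    ∃ g : GL (Fin 3) (ZMod 2), g ≠ 1 ∧ g.val * B = B * g.val := by
  have two : (2 : ZMod 2) = 0 := by decide
  have hB : B = !![B 0 0, B 0 1, B 0 2; B 1 0, B 1 1, B 1 2; B 2 0, B 2 1, B 2 2] := by
    ext i j; fin_cases i <;> fin_cases j <;> rfl
  by_cases hid : B * B = B
  · -- idempotent case
    have heq : ∀ i j, (B * B) i j = B i j := fun i j => by rw [hid]
    simp only [Matrix.mul_apply, Fin.sum_univ_three] at heq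
    rcases idem_key (B 0 0) (B 0 1) (B 0 2) (B 1 0) (B 1 1) (B 1 2) (B 2 0) (B 2 1) (B 2 2)
      ⟨heq 0 0, heq 0 1, heq 0 2, heq 1 0, heq 1 1, heq 1 2, heq 2 0, heq 2 1, heq 2 2⟩ with
      ⟨x, y, h1, ⟨u, h2⟩, ⟨v, h3⟩⟩ | ⟨x, y, h1, ⟨u, h2⟩, ⟨v, h3⟩⟩
    · have e : ∀ p q, (![![B 0 0, B 0 1, B 0 2], ![B 1 0, B 1 1, B 1 2], ![B 2 0, B 2 1, B 2 2]] :
          Fin 3 → Fin 3 → ZMod 2) p q = B p q := by
        intro p q; fin_cases p <;> fin_cases q <;> rfl
      rw [e] at h1 h2 h3
      exact idem_comm B hid x y h1 u h2 v h3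
    · have e : ∀ p q, (![![1 + B 0 0, B 0 1, B 0 2], ![B 1 0, 1 + B 1 1, B 1 2],
          ![B 2 0, B 2 1, 1 + B 2 2]] : Fin 3 → Fin 3 → ZMod 2) p q = (1 + B) p q := by
        intro p q; fin_cases p <;> fin_cases q <;> simp
      rw [e] at h1 h2 h3
      have hid' : (1 + B) * (1 + B) = 1 + B := by
        have h2B : B + B = 0 := by
          ext i j
          rw [Matrix.add_apply, Matrix.zero_apply, ← two_mul, two, zero_mul]
        rw [add_mul, one_mul, mul_add, mul_one, hid, h2B, add_zero]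
      obtain ⟨g, hg, hg2⟩ := idem_comm (1 + B) hid' x y h1 u h2 v h3
      refine ⟨g, hg, ?_⟩
      rw [mul_add, add_mul, mul_one, one_mul] at hg2
      exact add_left_cancel hg2
  · have hB1 : B ≠ 1 := by rintro rfl; exact hid (one_mul _)
    have hB0 : B ≠ 0 := by rintro rfl; exact hid (zero_mul _)
    have hneg : ∀ x : ZMod 2, -x = x := by decide
    rcases poly_key (B 0 0) (B 0 1) (B 0 2) (B 1 0) (B 1 1) (B 1 2) (B 2 0) (B 2 1) (B 2 2) with
      h | h | h
    · refine exists_of_det B B ?_ hB1 rfl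
      rw [Matrix.det_fin_three, ← h]
      simp only [sub_eq_add_neg, hneg]
      ring
    · refine exists_of_det B (1 + B) ?_ (by simpa using hB0) (by rw [add_mul, mul_add]; simp)
      rw [Matrix.det_fin_three, ← h]
      simp only [sub_eq_add_neg, hneg, Matrix.add_apply, Matrix.one_apply_eq]
      simp
      ring
    · refine exists_of_det B (1 + B + B * B) ?_ ?_ ?_
      · rw [Matrix.det_fin_three, ← h]
        simp only [sub_eq_add_neg, hneg, Matrix.add_apply, Matrix.mul_apply, Fin.sum_univ_three,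
          Matrix.one_apply_eq]
        simp
        ring
      · intro h1
        apply hid
        have h2 : B + B * B = 0 := by
          have h3 : 1 + (B + B * B) = 1 + 0 := by rw [← add_assoc, h1, add_zero]
          exact add_left_cancel h3
        have h4 : B * B = -B := by
          rw [eq_neg_iff_add_eq_zero, add_comm]; exact h2
        rw [h4]
        ext i j
        exact hneg _
      · noncomm_ring




section BigRep

variable {A k : Type} [CommRing A] [Field k] {π : A →+* k}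

/-- The regular split irreducible representation of dimension `q³(q+1)(q²+q+1)`. -/
theorem exists_big [Finite A] [Finite k] (hs : Function.Surjective π) (h0 : SqZero π)
    (h2 : (2 : k) ≠ 0) (x₀ : A) (hx₀ : π x₀ = 0) (hne : x₀ ≠ 0) :
    ∃ (V : Type) (_ : AddCommGroup V) (_ : Module ℂ V)
      (ρ : Representation ℂ (GL (Fin 3) A) V),
      FiniteDimensional ℂ V ∧ Nontrivial V ∧
      (∀ W : Submodule ℂ V, (∀ g v, v ∈ W → ρ g v ∈ W) → W = ⊥ ∨ W = ⊤) ∧
      (∃ g ∈ (redGL π).ker, ρ g ≠ 1) ∧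
      Module.finrank ℂ V =
        Nat.card k ^ 3 * (Nat.card k + 1) * (Nat.card k ^ 2 + Nat.card k + 1) := by
  classical
  have hA : Finite Aˣ := inferInstance
  have hne1 : oneAdd h0 x₀ hx₀ ≠ 1 := by
    intro h
    have := congrArg Units.val h
    rw [oneAdd_val, Units.val_one] at this
    exact hne (by simpa using this)
  obtain ⟨θ, hθ⟩ := CommGroup.exists_apply_ne_one_of_hasEnoughRootsOfUnity Aˣ ℂ hne1
  have hfG : Finite (GL (Fin 3) A) := inferInstance
  have hidx : (bigS π).index =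
      Nat.card k ^ 3 * (Nat.card k + 1) * (Nat.card k ^ 2 + Nat.card k + 1) := by
    rw [bigS, Subgroup.index_comap_of_surjective _ (redGL_surjective hs h0), index_torus]
  have hfr := finrank_indSpace (bigS π) (bigChi h0 θ)
  have hX : ∀ a b : Fin 3, π ((Matrix.single 1 1 x₀ : Matrix (Fin 3) (Fin 3) A) a b) = 0 := by
    intro a b
    rw [Matrix.single_apply]
    split_ifs
    · exact hx₀
    · exact map_zero _
  have hd0 : delta (bigS π) (bigChi h0 θ) 1 ≠ 0 := by
    intro h
    have h1 := delta_apply_self (bigS π) (bigChi h0 θ) 1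
    rw [h] at h1
    simp at h1
  refine ⟨indSpace (bigS π) (bigChi h0 θ), inferInstance, inferInstance,
    indRep (bigS π) (bigChi h0 θ), inferInstance, ⟨_, _, hd0⟩, ?_, ?_, ?_⟩
  · exact indRep_irreducible (bigS π) (bigChi h0 θ) (redGL π).ker ker_le_bigS
      (fun g hg => bigChi_sep hs h0 h2 θ x₀ hx₀ hθ g hg)
  · refine ⟨kElt h0 (Matrix.single 1 1 x₀) hX, kElt_mem h0 _ hX, ?_⟩
    intro h
    have h1 : indRep (bigS π) (bigChi h0 θ) (kElt h0 (Matrix.single 1 1 x₀) hX)
        (delta (bigS π) (bigChi h0 θ) 1) = delta (bigS π) (bigChi h0 θ) 1 := by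
      rw [h]; rfl
    rw [indRep_delta, mul_one] at h1
    have h3 := congrArg (fun f : indSpace (bigS π) (bigChi h0 θ) => (f : GL (Fin 3) A → ℂ) 1) h1
    have hm : (kElt h0 (Matrix.single 1 1 x₀) hX)⁻¹ * 1 ∈ bigS π := by
      rw [mul_one]
      exact (bigS π).inv_mem (ker_le_bigS (kElt_mem h0 _ hX))
    rw [delta_apply_self, delta_apply_of_mem _ _ _ _ hm] at h3
    have h4 : (bigChi h0 θ ⟨(kElt h0 (Matrix.single 1 1 x₀) hX)⁻¹ * 1, hm⟩)⁻¹ =
        bigChi h0 θ ⟨kElt h0 (Matrix.single 1 1 x₀) hX, ker_le_bigS (kElt_mem h0 _ hX)⟩ := by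
      rw [← map_inv]
      congr 1
      ext1
      simp
    rw [h4, bigChi_kElt] at h3
    apply hθ
    rw [Units.val_eq_one] at h3
    rw [← h3]
    congr 1
    apply Units.ext
    rw [oneAdd_val, oneAdd_val]
    simp
  · rw [hfr, hidx]

end BigRep

section Small

variable {A : Type} [CommRing A] {π : A →+* ZMod 2}

/-- The sign attached to an element of `ZMod 2`. -/
def sgn (a : ZMod 2) : ℂˣ := if a = 0 then 1 else -1

theorem sgn_zero : sgn 0 = 1 := by simp [sgn]

theorem sgn_one : sgn 1 = -1 := by simp [sgn]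

theorem sgn_add (a b : ZMod 2) : sgn (a + b) = sgn a * sgn b := by
  fin_cases a <;> fin_cases b
  · change sgn (0 + 0) = sgn 0 * sgn 0
    simp [sgn_zero]
  · change sgn (0 + 1) = sgn 0 * sgn 1
    simp [sgn_zero]
  · change sgn (1 + 0) = sgn 1 * sgn 0
    simp [sgn_zero]
  · change sgn (1 + 1) = sgn 1 * sgn 1
    have : (1 + 1 : ZMod 2) = 0 := by decide
    rw [this, sgn_zero, sgn_one]; simp

theorem sgn_sum {ι : Type} (s : Finset ι) (f : ι → ZMod 2) :
    sgn (∑ i ∈ s, f i) = ∏ i ∈ s, sgn (f i) := by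
  classical
  induction s using Finset.induction_on with
  | empty => simp [sgn_zero]
  | insert a s ha ih => rw [Finset.sum_insert ha, Finset.prod_insert ha, sgn_add, ih]

theorem small_stab (hs : Function.Surjective π) (h0 : SqZero π) (x₀ : A) (hx₀ : π x₀ = 0)
    (hgen : ∀ x : A, π x = 0 → ∃ a : A, x = x₀ * a)
    (ψ : (redGL π).ker →* ℂˣ) :
    ∃ g : GL (Fin 3) A, g ∉ (redGL π).ker ∧
      ∀ (x : GL (Fin 3) A) (hx : x ∈ (redGL π).ker), ψ ⟨g⁻¹ * x * g, by
        simpa using (redGL π).normal_ker.conj_mem x hx g⁻¹⟩ = ψ ⟨x, hx⟩ := by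
  classical
  have hk : ∀ Y : Matrix (Fin 3) (Fin 3) A, ∀ i j, π ((x₀ • Y) i j) = 0 := by
    intro Y i j
    rw [Matrix.smul_apply, smul_eq_mul, map_mul, hx₀, zero_mul]
  let Λ : Matrix (Fin 3) (Fin 3) A → ℂˣ := fun Y =>
    ψ ⟨kElt h0 (x₀ • Y) (hk Y), kElt_mem h0 _ (hk Y)⟩
  have hΛ : ∀ Y, Λ Y = ψ ⟨kElt h0 (x₀ • Y) (hk Y), kElt_mem h0 _ (hk Y)⟩ := fun _ => rfl
  have hΛadd : ∀ Y Z, Λ (Y + Z) = Λ Y * Λ Z := by
    intro Y Z
    rw [hΛ, hΛ, hΛ, ← map_mul]
    congr 1
    ext1
    rw [Subgroup.coe_mul]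
    simp only
    rw [kElt_mul]
    congr 1
    rw [smul_add]
  have hΛzero : Λ 0 = 1 := by
    rw [hΛ, ← map_one ψ]
    congr 1
    ext1
    apply Units.ext
    simp only
    rw [kElt_val]
    simp
  have hΛsum : ∀ (s : Finset (Fin 3)) (f : Fin 3 → Matrix (Fin 3) (Fin 3) A),
      Λ (∑ i ∈ s, f i) = ∏ i ∈ s, Λ (f i) := by
    intro s f
    induction s using Finset.induction_on with
    | empty => simp [hΛzero]
    | insert a s ha ih => rw [Finset.sum_insert ha, Finset.prod_insert ha, hΛadd, ih]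
  -- `Λ` only depends on the reduction
  have hΛker : ∀ Y : Matrix (Fin 3) (Fin 3) A, (∀ i j, π (Y i j) = 0) → Λ Y = 1 := by
    intro Y hY
    rw [hΛ, ← map_one ψ]
    congr 1
    ext1
    apply Units.ext
    simp only
    rw [kElt_val]
    have : x₀ • Y = 0 := by
      ext i j
      rw [Matrix.smul_apply, smul_eq_mul]
      exact h0 _ _ hx₀ (hY i j)
    rw [this]
    simp
  let ε : Fin 3 → Fin 3 → ℂˣ := fun i j => Λ (Matrix.single i j 1)
  have hε2 : ∀ i j, ε i j * ε i j = 1 := by
    intro i j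
    simp only [ε]
    rw [← hΛadd]
    apply hΛker
    intro a b
    rw [Matrix.add_apply, map_add]
    have : ∀ z : ZMod 2, z + z = 0 := by decide
    exact this _
  have hε : ∀ i j, ε i j = 1 ∨ ε i j = -1 := by
    intro i j
    have h1 := congrArg Units.val (hε2 i j)
    rw [Units.val_mul, Units.val_one] at h1
    rcases mul_self_eq_one_iff.1 h1 with h | h
    · left; exact Units.ext h
    · right; exact Units.ext (by rw [h]; simp)
  let B : Matrix (Fin 3) (Fin 3) (ZMod 2) := Matrix.of fun i j => if ε j i = 1 then 0 else 1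
  have hne : (-1 : ℂˣ) ≠ 1 := by
    intro h
    have := congrArg Units.val h
    simp only [Units.val_neg, Units.val_one] at this
    norm_num at this
  have hBε : ∀ i j (a : A), Λ (Matrix.single i j a) = sgn (B j i * π a) := by
    intro i j a
    have hz : ∀ z : ZMod 2, z = 0 ∨ z = 1 := by decide
    rcases hz (π a) with h | h
    · rw [h, mul_zero, sgn_zero]
      apply hΛker
      intro p q
      rw [Matrix.single_apply]
      split_ifs
      · exact h
      · exact map_zero _
    · rw [h, mul_one]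
      have h1 : Λ (Matrix.single i j a) = ε i j := by
        have h2 : Matrix.single i j a = Matrix.single i j 1 + Matrix.single i j (a - 1) := by
          rw [← Matrix.single_add]; congr 1; ring
        rw [h2, hΛadd, hΛker (Matrix.single i j (a - 1)), mul_one]
        intro p q
        rw [Matrix.single_apply]
        split_ifs
        · rw [map_sub, h, map_one, sub_self]
        · exact map_zero _
      rw [h1]
      rcases hε i j with h3 | h3
      · have : B j i = 0 := by simp [B, h3]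
        rw [this, sgn_zero, h3]
      · have : B j i = 1 := by simp [B, h3, hne]
        rw [this, sgn_one, h3]
  have hΛtr : ∀ Y : Matrix (Fin 3) (Fin 3) A, Λ Y = sgn (Matrix.trace (B * π.mapMatrix Y)) := by
    intro Y
    conv_lhs => rw [Matrix.matrix_eq_sum_single Y]
    rw [hΛsum, Matrix.trace]
    simp_rw [hΛsum, hBε, Matrix.diag_apply, Matrix.mul_apply, RingHom.mapMatrix_apply,
      Matrix.map_apply]
    rw [sgn_sum]
    rw [← Finset.prod_congr rfl (fun i _ => sgn_sum _ _)]
    rw [← sgn_sum, ← sgn_sum, Finset.sum_comm]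
  obtain ⟨gb, hgb1, hgb⟩ := exists_comm B
  obtain ⟨g, rfl⟩ := redGL_surjective hs h0 gb
  refine ⟨g, fun h => hgb1 h, ?_⟩
  intro x hx
  obtain ⟨X, hX, rfl⟩ := exists_kElt h0 x hx
  -- write `X = x₀ • Y`
  choose f hf using fun i j => hgen (X i j) (hX i j)
  have hXY : X = x₀ • Matrix.of f := by
    ext i j
    rw [Matrix.smul_apply, smul_eq_mul, Matrix.of_apply]
    exact hf i j
  subst hXY
  set Y : Matrix (Fin 3) (Fin 3) A := Matrix.of f with hYdef
  obtain ⟨hZ, hconj⟩ := conj_kElt h0 g (x₀ • Y) hX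
  have hmem : g⁻¹ * kElt h0 (x₀ • Y) hX * g ∈ (redGL π).ker := by
    have h := (redGL π).normal_ker.conj_mem _ hx g⁻¹
    rwa [inv_inv] at h
  have e1 : ψ ⟨g⁻¹ * kElt h0 (x₀ • Y) hX * g, hmem⟩ =
      Λ ((g⁻¹ : GL (Fin 3) A).val * Y * g.val) := by
    rw [hΛ]
    congr 1
    ext1
    simp only
    rw [hconj]
    congr 1
    rw [Matrix.mul_smul, Matrix.smul_mul]
  have e2 : ψ ⟨kElt h0 (x₀ • Y) hX, hx⟩ = Λ Y := rfl
  rw [e1, e2, hΛtr, hΛtr]
  congr 1
  have hg1 : π.mapMatrix g.val = (redGL π g).val := rfl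
  have hg2 : π.mapMatrix (g⁻¹ : GL (Fin 3) A).val = ((redGL π g)⁻¹ : GL (Fin 3) (ZMod 2)).val := by
    rw [← map_inv]; rfl
  rw [map_mul, map_mul, hg1, hg2]
  have h5 : Matrix.trace (B * (((redGL π g)⁻¹ : GL (Fin 3) (ZMod 2)).val * π.mapMatrix Y *
      (redGL π g).val)) =
      Matrix.trace ((redGL π g).val * B * ((redGL π g)⁻¹ : GL (Fin 3) (ZMod 2)).val *
        π.mapMatrix Y) := by
    rw [← mul_assoc, Matrix.trace_mul_comm, ← mul_assoc, ← mul_assoc]
  rw [h5, hgb, mul_assoc B, ← Units.val_mul, mul_inv_cancel, Units.val_one, mul_one]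

/-- Every irreducible representation of `GL₃(A)`, `A/m = 𝔽₂`, `m² = 0`, `m` principal, has
dimension at most 84. -/
theorem small_bound [Finite A] (hs : Function.Surjective π) (h0 : SqZero π) (x₀ : A)
    (hx₀ : π x₀ = 0) (hgen : ∀ x : A, π x = 0 → ∃ a : A, x = x₀ * a)
    {V : Type} [AddCommGroup V] [Module ℂ V] [FiniteDimensional ℂ V] [Nontrivial V]
    (ρ : Representation ℂ (GL (Fin 3) A) V)
    (hirr : ∀ W : Submodule ℂ V, (∀ g v, v ∈ W → ρ g v ∈ W) → W = ⊥ ∨ W = ⊤) :
    Module.finrank ℂ V ≤ 84 := by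
  have h1 := two_mul_finrank_le_index (redGL π).ker (ker_comm h0)
    (small_stab hs h0 x₀ hx₀ hgen) ρ hirr
  have h2 : (redGL π).ker.index ≤ 168 := by
    rw [Subgroup.index_ker]
    have h3 : Nat.card (redGL π).range ≤ Nat.card (GL (Fin 3) (ZMod 2)) :=
      Subgroup.card_le_card_group _
    have h4 : Nat.card (GL (Fin 3) (ZMod 2)) = 168 := by
      rw [Matrix.card_GL_field]
      simp [Fin.prod_univ_three, ZMod.card]
    omega
  omega

end Small


end Pool.Agent.Lib.MP_7ed69f_al
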